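import Mathlib

open Set Metric Filter Topology

namespace Pool.Agent.Results.MP_ad2f8c_co.ClearVisibility

variable {V : Type*} [NormedAddCommGroup V] [NormedSpace ℝ V]

/-- `E ∩ B` is closed under moving towards `y` inside `B`. -/
def Good (E B : Set V) (y : V) : Prop :=
  ∀ u ∈ E ∩ B, ∀ t ∈ Icc (0 : ℝ) 1, (1 - t) • u + t • y ∈ B → (1 - t) • u + t • y ∈ E

lemma good_convex {E B : Set V} (hE : IsClosed E) (hB : IsOpen B) (hBc : Convex ℝ B) :
    Convex ℝ {y | Good E B y} := by
  intro y hy y' hy' a b ha hb hab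
  have ha' : a = 1 - b := by linarith
  subst ha'
  intro u hu t ht hx
  have hb1 : b ≤ 1 := by linarith
  obtain ⟨z, hz⟩ : ∃ z : V, z = (1 - b) • y + b • y' := ⟨_, rfl⟩
  rw [← hz] at hx ⊢
  -- points on the segment are in B
  have hBm : ∀ τ ∈ Icc (0 : ℝ) t, (1 - τ) • u + τ • z ∈ B := by
    intro τ hτ
    rcases eq_or_lt_of_le ht.1 with h0 | h0
    · have : τ = 0 := le_antisymm (h0 ▸ hτ.2) hτ.1
      subst this
      simpa using hu.2
    · have h1 : (1 - τ) • u + τ • z = (1 - τ / t) • u + (τ / t) • ((1 - t) • u + t • z) := by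
        have h2 : τ / t * t = τ := div_mul_cancel₀ _ h0.ne'
        generalize τ / t = q at *
        rw [← h2]
        module
      rw [h1]
      apply hBc hu.2 hx
      · rw [sub_nonneg, div_le_one h0]; exact hτ.2
      · exact div_nonneg hτ.1 h0.le
      · ring
  set T : Set ℝ := {τ | (1 - τ) • u + τ • z ∈ E} with hT
  have hcl : IsClosed T := hE.preimage (by fun_prop)
  have key : Icc 0 t ⊆ T := by
    apply (hcl.inter isClosed_Icc).Icc_subset_of_forall_mem_nhdsWithin
    · show (1 - (0 : ℝ)) • u + (0 : ℝ) • z ∈ E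
      simpa using hu.1
    · rintro τ ⟨hτE, hτ⟩
      have hτ1 : τ < 1 := lt_of_lt_of_le hτ.2 ht.2
      obtain ⟨v, hv⟩ : ∃ v : V, v = (1 - τ) • u + τ • z := ⟨_, rfl⟩
      have hvB : v ∈ B := hv ▸ hBm τ ⟨hτ.1, hτ.2.le⟩
      have hvE : v ∈ E := hv ▸ hτE
      -- the parameters of the two moves
      let s : ℝ → ℝ := fun τ' => (τ' - τ) / (1 - τ)
      let α : ℝ → ℝ := fun τ' => (1 - b) * s τ' / (1 - b * s τ')
      have hs0 : s τ = 0 := by simp [s]
      have hα0 : α τ = 0 := by simp [α, hs0]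
      have hscont : Continuous s := by
        have : (1 - τ) ≠ 0 := by linarith
        fun_prop
      have hαcont : ContinuousAt α τ := by
        apply ContinuousAt.div
        · fun_prop
        · fun_prop
        · rw [hs0]; simp
      have hnear : ∀ᶠ τ' in 𝓝 τ, (1 - α τ') • v + α τ' • y ∈ B := by
        have hc : ContinuousAt (fun τ' => (1 - α τ') • v + α τ' • y) τ := by fun_prop
        apply hc.eventually_mem
        rw [hα0]
        simpa using hB.mem_nhds hvB
      have hlt : ∀ᶠ τ' in 𝓝 τ, τ' < t := eventually_lt_nhds hτ.2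
      have hmem : ∀ᶠ τ' in 𝓝[>] τ, τ' ∈ T := by
        filter_upwards [nhdsWithin_le_nhds hnear, nhdsWithin_le_nhds hlt,
          self_mem_nhdsWithin] with τ' h1 h2 h3
        have h3' : τ < τ' := h3
        have hden : 0 < 1 - τ := by linarith
        have hs_nonneg : 0 ≤ s τ' := div_nonneg (by linarith) hden.le
        have hs_lt : s τ' < 1 := by
          show (τ' - τ) / (1 - τ) < 1
          rw [div_lt_one hden]; linarith [ht.2]
        have hbs : b * s τ' < 1 := by nlinarith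
        have hd2 : 0 < 1 - b * s τ' := by linarith
        have hα_nonneg : 0 ≤ α τ' := div_nonneg (mul_nonneg (by linarith) hs_nonneg) hd2.le
        have hα_le : α τ' ≤ 1 := by
          show (1 - b) * s τ' / (1 - b * s τ') ≤ 1
          rw [div_le_one hd2]; nlinarith
        have hv1 : (1 - α τ') • v + α τ' • y ∈ E := hy v ⟨hvE, hvB⟩ _ ⟨hα_nonneg, hα_le⟩ h1
        have hαeq : α τ' * (1 - b * s τ') = (1 - b) * s τ' := div_mul_cancel₀ _ hd2.ne'
        have hseq : s τ' * (1 - τ) = τ' - τ := div_mul_cancel₀ _ hden.ne'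
        have heq : (1 - b * s τ') • ((1 - α τ') • v + α τ' • y) + (b * s τ') • y' =
            (1 - τ') • u + τ' • z := by
          have e1 : (1 - b * s τ') • ((1 - α τ') • v + α τ' • y) + (b * s τ') • y' =
              (1 - s τ') • v + s τ' • z := by
            have e2 : (1 - b * s τ') * (1 - α τ') = 1 - s τ' := by linear_combination -hαeq
            have e3 : (1 - b * s τ') * α τ' = s τ' * (1 - b) := by linear_combination hαeq
            calc (1 - b * s τ') • ((1 - α τ') • v + α τ' • y) + (b * s τ') • y'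
                = ((1 - b * s τ') * (1 - α τ')) • v + ((1 - b * s τ') * α τ') • y +
                  (b * s τ') • y' := by module
              _ = (1 - s τ') • v + s τ' • z := by
                  rw [e2, e3, hz]; module
          have e4 : (1 - s τ') * (1 - τ) = 1 - τ' := by linear_combination -hseq
          have e5 : (1 - s τ') * τ + s τ' = τ' := by linear_combination hseq
          calc _ = (1 - s τ') • v + s τ' • z := e1
            _ = ((1 - s τ') * (1 - τ)) • u + ((1 - s τ') * τ + s τ') • z := by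
                rw [hv]; module
            _ = _ := by rw [e4, e5]
        have hfin := hy' _ ⟨hv1, h1⟩ (b * s τ') ⟨mul_nonneg hb hs_nonneg, hbs.le⟩ (by
          rw [heq]; exact hBm τ' ⟨by linarith [hτ.1], h2.le⟩)
        rw [heq] at hfin
        exact hfin
      exact hmem
  exact key ⟨ht.1, le_rfl⟩

lemma good_closed {E B : Set V} (hE : IsClosed E) (hB : IsOpen B) :
    IsClosed {y | Good E B y} := by
  rw [← isSeqClosed_iff_isClosed]
  intro x y hx hxy u hu t ht hB'
  have hc : Tendsto (fun n => (1 - t) • u + t • x n) atTop (𝓝 ((1 - t) • u + t • y)) :=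
    tendsto_const_nhds.add (hxy.const_smul t)
  have h1 : ∀ᶠ n in atTop, (1 - t) • u + t • x n ∈ B := hc.eventually_mem (hB.mem_nhds hB')
  exact hE.mem_of_tendsto hc (h1.mono fun n hn => hx n u hu t ht hn)


lemma seg_param {y u x : V} (hx : x ∈ segment ℝ y u) :
    ∃ t ∈ Icc (0 : ℝ) 1, x = (1 - t) • u + t • y := by
  obtain ⟨a, b, ha, hb, hab, rfl⟩ := hx
  have : b = 1 - a := by linarith
  subst this
  exact ⟨a, ⟨ha, by linarith⟩, by rw [add_comm]⟩

lemma seg_of_param {y u : V} {t : ℝ} (ht : t ∈ Icc (0 : ℝ) 1) :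
    (1 - t) • u + t • y ∈ segment ℝ y u :=
  ⟨t, 1 - t, ht.1, by linarith [ht.2], by ring, by rw [add_comm]⟩

/-- a segment through an intermediate point -/
lemma seg_split {E : Set V} {y u c : V} {τ : ℝ} (h1 : τ < 1)
    (hc : c = (1 - τ) • u + τ • y) (h2 : segment ℝ y c ⊆ E)
    (h3 : ∀ t ∈ Icc (0 : ℝ) τ, (1 - t) • u + t • y ∈ E) : segment ℝ y u ⊆ E := by
  intro x hx
  obtain ⟨t, ht, rfl⟩ := seg_param hx
  rcases le_total t τ with h4 | h4
  · exact h3 t ⟨ht.1, h4⟩
  · apply h2
    have hd : 0 < 1 - τ := by linarith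
    have he : (t - τ) / (1 - τ) * (1 - τ) = t - τ := div_mul_cancel₀ _ hd.ne'
    have hs : (t - τ) / (1 - τ) ∈ Icc (0 : ℝ) 1 :=
      ⟨div_nonneg (by linarith) hd.le, by rw [div_le_one hd]; linarith [ht.2]⟩
    convert seg_of_param (y := y) (u := c) hs using 1
    generalize (t - τ) / (1 - τ) = q at *
    rw [hc]
    have e1 : 1 - t = (1 - q) * (1 - τ) := by linear_combination he
    have e2 : t = (1 - q) * τ + q := by linear_combination -he
    calc (1 - t) • u + t • y = ((1 - q) * (1 - τ)) • u + ((1 - q) * τ + q) • y := by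
          rw [← e1, ← e2]
      _ = _ := by module

lemma step {E : Set V} (hE : IsClosed E) {y w p : V} {ρ τ δ : ℝ} (h0 : 0 < τ) (h1 : τ < 1)
    (hloc : Convex ℝ (ball w ρ ∩ E) ∨ Good E (ball w ρ) y)
    (hp : p = (1 - τ) • w + τ • y) (hpE : p ∈ E) (hpρ : p ∈ ball w ρ) (hδ : 0 < δ)
    (hW : ∀ u ∈ E ∩ ball p δ, segment ℝ y u ⊆ E) :
    ∃ ε > 0, ∀ u ∈ E ∩ ball w ε, segment ℝ y u ⊆ E := by
  have hρ' : dist p w < ρ := hpρ
  refine ⟨min δ (ρ - dist p w), lt_min hδ (by linarith), ?_⟩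
  rintro u ⟨huE, huw⟩
  obtain ⟨c, hc⟩ : ∃ c : V, c = (1 - τ) • u + τ • y := ⟨_, rfl⟩
  have huw' : dist u w < min δ (ρ - dist p w) := huw
  have huρ : u ∈ ball w ρ := by
    have := lt_of_lt_of_le huw' (min_le_right _ _)
    have h2 := dist_nonneg (x := p) (y := w)
    show dist u w < ρ
    linarith
  have hcp : dist c p ≤ dist u w := by
    rw [hc, hp, dist_eq_norm, dist_eq_norm]
    have : (1 - τ) • u + τ • y - ((1 - τ) • w + τ • y) = (1 - τ) • (u - w) := by module
    rw [this, norm_smul, Real.norm_eq_abs, abs_of_pos (by linarith)]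
    have := norm_nonneg (u - w)
    nlinarith
  have hcδ : c ∈ ball p δ := lt_of_le_of_lt hcp (lt_of_lt_of_le huw' (min_le_left _ _))
  have hcρ : c ∈ ball w ρ := by
    show dist c w < ρ
    have := dist_triangle c p w
    have h2 := lt_of_lt_of_le huw' (min_le_right _ _)
    linarith
  have hin : ∀ t ∈ Icc (0 : ℝ) τ, (1 - t) • u + t • y ∈ segment ℝ u c := by
    intro t ht
    refine ⟨1 - t / τ, t / τ, ?_, div_nonneg ht.1 h0.le, by ring, ?_⟩
    · rw [sub_nonneg, div_le_one h0]; exact ht.2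
    · rw [hc]
      have he : t / τ * τ = t := div_mul_cancel₀ _ h0.ne'
      generalize t / τ = q at *
      rw [← he]
      module
  rcases hloc with hconv | hgood
  · -- the convex case
    have huC : u ∈ ball w ρ ∩ E := ⟨huρ, huE⟩
    have hcE : c ∈ E := by
      set T : Set ℝ := {t | c + t • (p - c) ∈ E} ∩ Icc 0 1 with hT
      have hTc : IsCompact T :=
        isCompact_Icc.inter_left (hE.preimage (by fun_prop))
      have h1T : (1 : ℝ) ∈ T := ⟨by show c + (1 : ℝ) • (p - c) ∈ E; simpa using hpE, by simp⟩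
      obtain ⟨t₀, ht₀, hmin⟩ := hTc.exists_isLeast ⟨1, h1T⟩
      rcases eq_or_lt_of_le ht₀.2.1 with h2 | h2
      · have := ht₀.1
        rw [← h2] at this
        simpa using this
      · exfalso
        obtain ⟨v, hv⟩ : ∃ v : V, v = c + t₀ • (p - c) := ⟨_, rfl⟩
        have hvE : v ∈ E := hv ▸ ht₀.1
        have hvseg : v ∈ segment ℝ c p :=
          ⟨1 - t₀, t₀, by linarith [ht₀.2.2], h2.le, by ring, by rw [hv]; module⟩
        have hvδ : v ∈ ball p δ := (convex_ball p δ).segment_subset hcδ (mem_ball_self hδ) hvseg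
        have hvρ : v ∈ ball w ρ := (convex_ball w ρ).segment_subset hcρ hpρ hvseg
        -- choose a small η
        have hcont : ContinuousAt (fun η : ℝ => (1 - η) • v + η • u) 0 := by fun_prop
        have hev : ∀ᶠ η in 𝓝 (0 : ℝ), (1 - η) • v + η • u ∈ ball p δ := by
          apply hcont.eventually_mem
          simpa using isOpen_ball.mem_nhds hvδ
        obtain ⟨η, hη1, hη0, hη2⟩ : ∃ η : ℝ, (1 - η) • v + η • u ∈ ball p δ ∧ 0 < η ∧ η < 1 := by
          have h3 : ∀ᶠ η in 𝓝[>] (0 : ℝ), (1 - η) • v + η • u ∈ ball p δ ∧ 0 < η ∧ η < 1 := by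
            filter_upwards [nhdsWithin_le_nhds hev, self_mem_nhdsWithin,
              nhdsWithin_le_nhds (eventually_lt_nhds (zero_lt_one : (0 : ℝ) < 1))] with η a b c
            exact ⟨a, b, c⟩
          exact h3.exists
        obtain ⟨u', hu'⟩ : ∃ u' : V, u' = (1 - η) • v + η • u := ⟨_, rfl⟩
        rw [← hu'] at hη1
        have hu'C : u' ∈ ball w ρ ∩ E := by
          rw [hu']
          exact hconv ⟨hvρ, hvE⟩ huC (by linarith) hη0.le (by ring)
        have hseg := hW u' ⟨hu'C.2, hη1⟩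
        have hD : 0 < 1 - τ + η * τ := by nlinarith
        have hμ : η * τ / (1 - τ + η * τ) ∈ Icc (0 : ℝ) 1 :=
          ⟨by positivity, by rw [div_le_one hD]; linarith⟩
        have hM := hseg (seg_of_param (y := y) (u := u') hμ)
        -- the new parameter
        have hκ : (1 - τ) * (1 - η) / (1 - τ + η * τ) * t₀ ∈ T := by
          have hk0 : 0 ≤ (1 - τ) * (1 - η) / (1 - τ + η * τ) :=
            div_nonneg (mul_nonneg (by linarith) (by linarith)) hD.le
          have hk1 : (1 - τ) * (1 - η) / (1 - τ + η * τ) ≤ 1 := by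
            rw [div_le_one hD]; nlinarith
          refine ⟨?_, mul_nonneg hk0 h2.le, ?_⟩
          · show c + ((1 - τ) * (1 - η) / (1 - τ + η * τ) * t₀) • (p - c) ∈ E
            convert hM using 1
            have e1 : η * τ / (1 - τ + η * τ) * (1 - τ + η * τ) = η * τ :=
              div_mul_cancel₀ _ hD.ne'
            have e2 : (1 - τ) * (1 - η) / (1 - τ + η * τ) * (1 - τ + η * τ) =
              (1 - τ) * (1 - η) := div_mul_cancel₀ _ hD.ne'
            generalize η * τ / (1 - τ + η * τ) = μ at *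
            generalize (1 - τ) * (1 - η) / (1 - τ + η * τ) = κ at *
            have e3 : κ = (1 - μ) * (1 - η) := by
              apply mul_right_cancel₀ hD.ne'
              linear_combination e2 + (1 - η) * e1
            have e4 : (1 - κ) * (1 - τ) = (1 - μ) * η := by
              apply mul_right_cancel₀ hD.ne'
              linear_combination η * e1 - (1 - τ) * e2
            have e5 : (1 - κ) * τ = μ := by
              apply mul_right_cancel₀ hD.ne'
              linear_combination -e1 - τ * e2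
            calc c + (κ * t₀) • (p - c) = κ • (c + t₀ • (p - c)) + (1 - κ) • c := by module
              _ = κ • v + (1 - κ) • c := by rw [← hv]
              _ = κ • v + ((1 - κ) * (1 - τ)) • u + ((1 - κ) * τ) • y := by
                  rw [hc]; module
              _ = ((1 - μ) * (1 - η)) • v + ((1 - μ) * η) • u + μ • y := by
                  rw [e4, e5, ← e3]
              _ = (1 - μ) • u' + μ • y := by rw [hu']; module
          · calc _ ≤ 1 * 1 := mul_le_mul hk1 ht₀.2.2 h2.le zero_le_one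
              _ = 1 := one_mul 1
        have hle := hmin hκ
        have hk1 : (1 - τ) * (1 - η) / (1 - τ + η * τ) < 1 := by
          rw [div_lt_one hD]; nlinarith
        have : (1 - τ) * (1 - η) / (1 - τ + η * τ) * t₀ < 1 * t₀ :=
          mul_lt_mul_of_pos_right hk1 h2
        linarith
    have h4 : segment ℝ u c ⊆ ball w ρ ∩ E := hconv.segment_subset huC ⟨hcρ, hcE⟩
    exact seg_split h1 hc (hW c ⟨hcE, hcδ⟩) fun t ht => (h4 (hin t ht)).2
  · have hball : segment ℝ u c ⊆ ball w ρ := (convex_ball w ρ).segment_subset huρ hcρ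
    have hcE : c ∈ E := by
      rw [hc]
      exact hgood u ⟨huE, huρ⟩ τ ⟨h0.le, h1.le⟩ (hc ▸ hcρ)
    exact seg_split h1 hc (hW c ⟨hcE, hcδ⟩) fun t ht =>
      hgood u ⟨huE, huρ⟩ t ⟨ht.1, by linarith [ht.2]⟩ (hball (hin t ht))


lemma closed_vis {E : Set V} (hE : IsClosed E) (y : V) : IsClosed {z | segment ℝ y z ⊆ E} := by
  have : {z | segment ℝ y z ⊆ E} = ⋂ t ∈ Icc (0 : ℝ) 1, {z | (1 - t) • z + t • y ∈ E} := by
    ext z
    simp only [mem_ofPred_eq, mem_iInter]
    constructor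
    · intro h t ht
      exact h (seg_of_param ht)
    · intro h x hx
      obtain ⟨t, ht, rfl⟩ := seg_param hx
      exact h t ht
  rw [this]
  exact isClosed_biInter fun t _ => hE.preimage (by fun_prop)

theorem thmA {E : Set V} (hE : IsClosed E) (hpre : IsPreconnected E) {y : V} (hy : y ∈ E)
    (hloc : ∀ w ∈ E, ∃ ρ > 0, Convex ℝ (ball w ρ ∩ E) ∨ Good E (ball w ρ) y) :
    ∀ z ∈ E, segment ℝ y z ⊆ E := by
  have hopen : ∀ z ∈ E, segment ℝ y z ⊆ E → ∀ᶠ z' in 𝓝[E] z, segment ℝ y z' ⊆ E := by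
    intro z hz hseg
    let p : ℝ → V := fun s => (1 - s) • y + s • z
    have hpc : Continuous p := by fun_prop
    have hpE : ∀ s ∈ Icc (0 : ℝ) 1, p s ∈ E := by
      intro s hs
      apply hseg
      have := seg_of_param (y := z) (u := y) hs
      rw [segment_symm]
      exact this
    let W : ℝ → Prop := fun s => ∃ δ > 0, ∀ u ∈ E ∩ ball (p s) δ, segment ℝ y u ⊆ E
    have hWopen : IsOpen {s | W s} := by
      rw [isOpen_iff_mem_nhds]
      rintro s ⟨δ, hδ, h⟩
      have h1 : ∀ᶠ s' in 𝓝 s, p s' ∈ ball (p s) (δ / 2) :=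
        hpc.continuousAt.eventually_mem (isOpen_ball.mem_nhds (mem_ball_self (by linarith)))
      filter_upwards [h1] with s' hs'
      refine ⟨δ / 2, by linarith, fun u hu => h u ⟨hu.1, ?_⟩⟩
      have h2 : dist (p s') (p s) < δ / 2 := hs'
      have h3 : dist u (p s') < δ / 2 := hu.2
      show dist u (p s) < δ
      linarith [dist_triangle u (p s') (p s)]
    have hW0 : W 0 := by
      obtain ⟨ρ, hρ, h⟩ := hloc y hy
      have hp0 : p 0 = y := by simp [p]
      refine ⟨ρ, hρ, fun u hu => ?_⟩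
      rw [hp0] at hu
      rcases h with h | h
      · exact fun x hx => (h.segment_subset ⟨mem_ball_self hρ, hy⟩ ⟨hu.2, hu.1⟩ hx).2
      · intro x hx
        have hxb := (convex_ball y ρ).segment_subset (mem_ball_self hρ) hu.2 hx
        obtain ⟨t, ht, rfl⟩ := seg_param hx
        exact h u hu t ht hxb
    have hWall : ∀ s ∈ Icc (0 : ℝ) 1, W s := by
      by_contra hcon
      push Not at hcon
      obtain ⟨s₁, hs₁, hs₁'⟩ := hcon
      have hBc : IsCompact (Icc (0 : ℝ) 1 ∩ {s | W s}ᶜ) := isCompact_Icc.inter_right hWopen.isClosed_compl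
      obtain ⟨s₀, hs₀, hmin⟩ := hBc.exists_isLeast ⟨s₁, hs₁, hs₁'⟩
      have hne : s₀ ≠ 0 := by
        rintro rfl
        exact hs₀.2 hW0
      have hpos : 0 < s₀ := lt_of_le_of_ne hs₀.1.1 (Ne.symm hne)
      obtain ⟨ρ, hρ, h⟩ := hloc (p s₀) (hpE s₀ hs₀.1)
      have h1 : ∀ᶠ σ in 𝓝 s₀, p σ ∈ ball (p s₀) ρ :=
        hpc.continuousAt.eventually_mem (isOpen_ball.mem_nhds (mem_ball_self hρ))
      obtain ⟨σ, hσ1, hσ2, hσ3⟩ : ∃ σ, p σ ∈ ball (p s₀) ρ ∧ 0 < σ ∧ σ < s₀ := by
        have h3 : ∀ᶠ σ in 𝓝[<] s₀, p σ ∈ ball (p s₀) ρ ∧ 0 < σ ∧ σ < s₀ := by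
          filter_upwards [nhdsWithin_le_nhds h1, nhdsWithin_le_nhds (eventually_gt_nhds hpos),
            self_mem_nhdsWithin] with σ a b c
          exact ⟨a, b, c⟩
        exact h3.exists
      have hσI : σ ∈ Icc (0 : ℝ) 1 := ⟨hσ2.le, by linarith [hs₀.1.2]⟩
      have hWσ : W σ := by
        by_contra hn
        have := hmin ⟨hσI, hn⟩
        linarith
      obtain ⟨δ, hδ, hW⟩ := hWσ
      have hq : σ / s₀ * s₀ = σ := div_mul_cancel₀ _ hpos.ne'
      have hq0 : 0 < σ / s₀ := div_pos hσ2 hpos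
      have hq1 : σ / s₀ < 1 := by rw [div_lt_one hpos]; exact hσ3
      obtain ⟨ε, hε, hfin⟩ := step hE (y := y) (w := p s₀) (p := p σ) (τ := 1 - σ / s₀)
        (by linarith) (by linarith) h (by
          show (1 - σ) • y + σ • z = (1 - (1 - σ / s₀)) • ((1 - s₀) • y + s₀ • z) +
            (1 - σ / s₀) • y
          generalize σ / s₀ = q at *
          rw [← hq]
          module) (hpE σ hσI) hσ1 hδ hW
      exact hs₀.2 ⟨ε, hε, hfin⟩
    obtain ⟨δ, hδ, hW⟩ := hWall 1 (by simp)
    have hp1 : p 1 = z := by simp [p]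
    rw [hp1] at hW
    filter_upwards [self_mem_nhdsWithin, nhdsWithin_le_nhds (ball_mem_nhds z hδ)] with z' h1 h2
    exact hW z' ⟨h1, h2⟩
  intro z hz
  have hyy : segment ℝ y y ⊆ E := by simpa using hy
  have := hpre.induction₂ (fun a b => (segment ℝ y a ⊆ E ↔ segment ℝ y b ⊆ E))
    (fun a ha => by
      by_cases h : segment ℝ y a ⊆ E
      · filter_upwards [hopen a ha h] with b hb
        exact ⟨fun _ => hb, fun _ => h⟩
      · have : ∀ᶠ b in 𝓝[E] a, ¬ segment ℝ y b ⊆ E :=
          nhdsWithin_le_nhds ((closed_vis hE y).isOpen_compl.mem_nhds h)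
        filter_upwards [this] with b hb
        exact ⟨fun h' => absurd h' h, fun h' => absurd h' hb⟩)
    (fun a b c _ _ _ h1 h2 => h1.trans h2) (fun a b _ _ h => h.symm) hy hz
  exact this.1 hyy


/-! ## the mountain pass argument -/

/-- a decreasing family (indexed by reals `μ > l`) of compact preconnected sets has a
preconnected intersection -/
lemma nested_preconnected {C : ℝ → Set V} (hmono : Monotone C) (hcomp : ∀ μ, IsCompact (C μ))
    (hpre : ∀ μ, IsPreconnected (C μ)) (l : ℝ) : IsPreconnected (⋂ μ : Ioi l, C μ) := by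
  have hcl : IsClosed (⋂ μ : Ioi l, C μ) := isClosed_iInter fun μ => (hcomp μ).isClosed
  rw [isPreconnected_iff_subset_of_fully_disjoint_closed hcl]
  intro A B hA hB hAB hdis
  obtain ⟨O, O', hO, hO', hAO, hBO', hOO'⟩ := normal_separation hA hB hdis
  have : Nonempty (Ioi l) := ⟨⟨l + 1, by simp⟩⟩
  obtain ⟨μ, hμ⟩ := exists_subset_nhds_of_isCompact' (V := fun μ : Ioi l => C μ)
    (U := O ∪ O') (by
      intro a b
      refine ⟨⟨min a.1 b.1, mem_Ioi.2 (lt_min (mem_Ioi.1 a.2) (mem_Ioi.1 b.2))⟩, ?_, ?_⟩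
      · exact hmono (min_le_left _ _)
      · exact hmono (min_le_right _ _)) (fun μ => hcomp μ) (fun μ => (hcomp μ).isClosed) (by
      intro x hx
      rcases hAB hx with h | h
      · exact (hO.union hO').mem_nhds (Or.inl (hAO h))
      · exact (hO.union hO').mem_nhds (Or.inr (hBO' h)))
  have hsub : (⋂ μ : Ioi l, C μ) ⊆ C μ := iInter_subset _ μ
  have h2 := isPreconnected_iff_subset_of_disjoint.1 (hpre μ) O O' hO hO' hμ (by
    rw [hOO'.inter_eq, inter_empty])
  rcases h2 with h | h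
  · left
    intro x hx
    rcases hAB hx with h3 | h3
    · exact h3
    · exact absurd (h (hsub hx)) (disjoint_right.1 hOO' (hBO' h3))
  · right
    intro x hx
    rcases hAB hx with h3 | h3
    · exact absurd (h (hsub hx)) (disjoint_left.1 hOO' (hAO h3))
    · exact h3

theorem mountain {E : Set V} (hE : IsCompact E) (hpre : IsPreconnected E) (f : V →L[ℝ] ℝ) (c : ℝ)
    (hloc : ∀ w ∈ E, ∃ ρ > 0, Convex ℝ (ball w ρ ∩ E) ∨
      ∃ y ∈ E, f y < c ∧ ∀ u ∈ ball w ρ ∩ E, segment ℝ y u ⊆ E)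
    {z₀ z₁ : V} (hz₀ : z₀ ∈ E) (hcz : c ≤ f z₀)
    (hmin : ∃ ρ > 0, ∀ u ∈ ball z₀ ρ ∩ E, f z₀ ≤ f u) (hz₁ : z₁ ∈ E) (hz₁c : f z₁ < c) :
    False := by
  let S : ℝ → Set V := fun l => E ∩ {x | f x ≤ l}
  have hScl : ∀ l, IsClosed (S l) := fun l =>
    hE.isClosed.inter (isClosed_le f.continuous continuous_const)
  have hScomp : ∀ l, IsCompact (S l) := fun l =>
    hE.inter_right (isClosed_le f.continuous continuous_const)
  let C : ℝ → Set V := fun l => connectedComponentIn (S l) z₀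
  have hCpre : ∀ l, IsPreconnected (C l) := fun l => isPreconnected_connectedComponentIn
  have hCS : ∀ l, C l ⊆ S l := fun l => connectedComponentIn_subset _ _
  have hCmono : Monotone C := fun a b hab =>
    connectedComponentIn_mono _ (inter_subset_inter_right _ fun x (hx : f x ≤ a) => hx.trans hab)
  have hCmem : ∀ l, f z₀ ≤ l → z₀ ∈ C l := fun l hl => mem_connectedComponentIn ⟨hz₀, hl⟩
  have hCle : ∀ l x, x ∈ C l → f z₀ ≤ l := fun l x hx =>
    (connectedComponentIn_nonempty_iff.1 ⟨x, hx⟩).2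
  -- absorbing connected sets
  have habs : ∀ l, ∀ K : Set V, IsPreconnected K → K ⊆ S l → ∀ x ∈ K, x ∈ C l → K ⊆ C l := by
    intro l K hK hKS x hxK hxC
    have h1 : C l = connectedComponentIn (S l) x := connectedComponentIn_eq hxC
    rw [h1]
    exact hK.subset_connectedComponentIn hxK hKS
  have hCcl : ∀ l, IsClosed (C l) := by
    intro l
    rcases (C l).eq_empty_or_nonempty with h | ⟨x, hx⟩
    · rw [h]; exact isClosed_empty
    · have h1 : closure (C l) ⊆ C l := by
        apply habs l _ (hCpre l).closure _ x (subset_closure hx) hx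
        exact closure_minimal (hCS l) (hScl l)
      exact isClosed_of_closure_subset h1
  have hCcomp : ∀ l, IsCompact (C l) := fun l => (hScomp l).of_isClosed_subset (hCcl l) (hCS l)
  -- the set of levels connecting z₀ and z₁
  let L : Set ℝ := {l | z₁ ∈ C l}
  obtain ⟨M, hM⟩ : ∃ M, ∀ x ∈ E, f x ≤ M := by
    obtain ⟨M, hM⟩ := (hE.image f.continuous).bddAbove
    exact ⟨M, fun x hx => hM ⟨x, hx, rfl⟩⟩
  have hML : M ∈ L := by
    have : S M = E := inter_eq_left.2 fun x hx => hM x hx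
    show z₁ ∈ connectedComponentIn (S M) z₀
    rw [this, hpre.connectedComponentIn hz₀]
    exact hz₁
  have hLbdd : BddBelow L := ⟨f z₀, fun l hl => hCle l z₁ hl⟩
  set l₀ := sInf L with hl₀
  have hl₀ge : f z₀ ≤ l₀ := le_csInf ⟨M, hML⟩ fun l hl => hCle l z₁ hl
  have hl₀L : z₁ ∈ C l₀ := by
    have h1 : z₁ ∈ ⋂ μ : Ioi l₀, C μ := by
      rw [mem_iInter]
      rintro ⟨μ, hμ⟩
      obtain ⟨l, hl, hlμ⟩ := (csInf_lt_iff hLbdd ⟨M, hML⟩).1 hμ
      exact hCmono hlμ.le hl
    have h2 : z₀ ∈ ⋂ μ : Ioi l₀, C μ := by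
      rw [mem_iInter]
      rintro ⟨μ, hμ⟩
      exact hCmem μ (hl₀ge.trans (le_of_lt hμ))
    have h3 : (⋂ μ : Ioi l₀, C μ) ⊆ S l₀ := by
      intro x hx
      rw [mem_iInter] at hx
      refine ⟨(hCS _ (hx ⟨l₀ + 1, by simp⟩)).1, ?_⟩
      show f x ≤ l₀
      apply le_of_forall_gt_imp_ge_of_dense
      intro a ha
      exact (hCS _ (hx ⟨a, ha⟩)).2
    exact (nested_preconnected hCmono hCcomp hCpre l₀).subset_connectedComponentIn h2 h3 h1
  have hz₁l : f z₁ < l₀ := by linarith
  rcases eq_or_lt_of_le hl₀ge with hcase | hcase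
  · -- the level of z₀ itself
    let P : V → Prop := fun s => f s = l₀ ∧ ∃ ρ > 0, ∀ u ∈ ball s ρ ∩ E, l₀ ≤ f u
    have hPopen : ∀ s ∈ C l₀, P s → ∀ᶠ s' in 𝓝[C l₀] s, P s' := by
      rintro s hs ⟨h1, ρ, hρ, h2⟩
      filter_upwards [self_mem_nhdsWithin, nhdsWithin_le_nhds (ball_mem_nhds s (half_pos hρ))]
        with s' h3 h4
      have h4' : dist s' s < ρ / 2 := h4
      have h5 : s' ∈ E := (hCS _ h3).1
      have h6 : l₀ ≤ f s' := h2 s' ⟨by show dist s' s < ρ; linarith, h5⟩
      refine ⟨le_antisymm (hCS _ h3).2 h6, ρ / 2, half_pos hρ, fun u hu => h2 u ⟨?_, hu.2⟩⟩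
      have h7 : dist u s' < ρ / 2 := hu.1
      show dist u s < ρ
      linarith [dist_triangle u s' s]
    have hPclosed : ∀ s ∈ C l₀, ¬ P s → ∀ᶠ s' in 𝓝[C l₀] s, ¬ P s' := by
      intro s hs hnP
      have hsE : s ∈ E := (hCS _ hs).1
      have hsl : f s ≤ l₀ := (hCS _ hs).2
      obtain ⟨ρ, hρ, h⟩ := hloc s hsE
      filter_upwards [self_mem_nhdsWithin, nhdsWithin_le_nhds (ball_mem_nhds s hρ)] with s' h3 h4
      rintro ⟨h5, ρ', hρ', h6⟩
      have hs'E : s' ∈ E := (hCS _ h3).1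
      -- if some point seen from `s'` is lower we get a contradiction
      have hlow : ∀ u ∈ E, segment ℝ s' u ⊆ E → l₀ ≤ f u := by
        intro u _ hseg
        by_contra hlt
        push Not at hlt
        have hcont : ContinuousAt (fun t : ℝ => (1 - t) • s' + t • u) 0 := by fun_prop
        have hev : ∀ᶠ t in 𝓝 (0 : ℝ), (1 - t) • s' + t • u ∈ ball s' ρ' := by
          apply hcont.eventually_mem
          simpa using isOpen_ball.mem_nhds (mem_ball_self hρ')
        have h7 : ∀ᶠ t in 𝓝[>] (0 : ℝ), (1 - t) • s' + t • u ∈ ball s' ρ' ∧ 0 < t ∧ t < 1 := by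
          filter_upwards [nhdsWithin_le_nhds hev, self_mem_nhdsWithin,
            nhdsWithin_le_nhds (eventually_lt_nhds (zero_lt_one : (0 : ℝ) < 1))] with t a b d
          exact ⟨a, b, d⟩
        obtain ⟨t, ht1, ht2, ht3⟩ := h7.exists
        have h8 : (1 - t) • s' + t • u ∈ E := by
          apply hseg
          exact ⟨1 - t, t, by linarith, ht2.le, by ring, rfl⟩
        have h9 := h6 _ ⟨ht1, h8⟩
        rw [map_add, map_smul, map_smul, smul_eq_mul, smul_eq_mul, h5] at h9
        nlinarith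
      rcases h with h | ⟨y, hyE, hyc, hy⟩
      · apply hnP
        have h7 : ∀ u ∈ ball s ρ ∩ E, l₀ ≤ f u := by
          intro u hu
          exact hlow u hu.2 fun x hx => (h.segment_subset ⟨h4, hs'E⟩ hu hx).2
        exact ⟨le_antisymm hsl (h7 s ⟨mem_ball_self hρ, hsE⟩), ρ, hρ, h7⟩
      · have := hlow y hyE (by rw [segment_symm]; exact hy s' ⟨h4, hs'E⟩)
        linarith
    have h0 : z₀ ∈ C l₀ := hCmem l₀ hl₀ge
    have hP0 : P z₀ := by
      obtain ⟨ρ, hρ, h⟩ := hmin
      exact ⟨hcase, ρ, hρ, fun u hu => hcase ▸ h u hu⟩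
    have := (hCpre l₀).induction₂ (fun a b => (P a ↔ P b))
      (fun a ha => by
        by_cases h : P a
        · filter_upwards [hPopen a ha h] with b hb
          exact ⟨fun _ => hb, fun _ => h⟩
        · filter_upwards [hPclosed a ha h] with b hb
          exact ⟨fun h' => absurd h' h, fun h' => absurd h' hb⟩)
      (fun a b c _ _ _ h1 h2 => h1.trans h2) (fun a b _ _ h => h.symm) h0 hl₀L
    have hP1 := this.1 hP0
    linarith [hP1.1]
  · -- a genuine pass level
    let U₀ : Set V := ⋃ l ∈ Iio l₀, C l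
    have hU₀ : ∀ x, x ∈ U₀ ↔ ∃ l < l₀, x ∈ C l := by
      intro x
      simp only [U₀, mem_iUnion, mem_Iio, exists_prop]
    -- lower points seen from a point of U₀ are in U₀
    have hlow : ∀ p ∈ U₀, ∀ w, segment ℝ p w ⊆ E → f w < l₀ → w ∈ U₀ := by
      intro p hp w hseg hw
      rw [hU₀] at hp ⊢
      obtain ⟨l, hl, hpl⟩ := hp
      refine ⟨max l (f w), max_lt hl hw, ?_⟩
      have h1 : segment ℝ p w ⊆ S (max l (f w)) := by
        intro x hx
        refine ⟨hseg hx, ?_⟩
        have hfp : f p ≤ max l (f w) := ((hCS _ hpl).2).trans (le_max_left _ _)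
        have hfw : f w ≤ max l (f w) := le_max_right _ _
        obtain ⟨a, b, ha, hb, hab, rfl⟩ := hx
        show f (a • p + b • w) ≤ max l (f w)
        rw [map_add, map_smul, map_smul, smul_eq_mul, smul_eq_mul]
        calc a * f p + b * f w ≤ a * max l (f w) + b * max l (f w) := by gcongr
          _ = max l (f w) := by rw [← add_mul, hab, one_mul]
      have hpre' : IsPreconnected (segment ℝ p w) := (convex_segment p w).isPreconnected
      exact habs _ _ hpre' h1 p (left_mem_segment ℝ p w) (hCmono (le_max_left _ _) hpl)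
        (right_mem_segment ℝ p w)
    have hlow2 : ∀ p ∈ U₀, ∀ w, segment ℝ p w ⊆ E → f w ≤ l₀ → w ∈ closure U₀ := by
      intro p hp w hseg hw
      have hfp : f p < l₀ := by
        obtain ⟨l, hl, hpl⟩ := (hU₀ p).1 hp
        exact lt_of_le_of_lt (hCS _ hpl).2 hl
      have hcont : Tendsto (fun t : ℝ => (1 - t) • w + t • p) (𝓝[>] 0) (𝓝 w) := by
        have : ContinuousAt (fun t : ℝ => (1 - t) • w + t • p) 0 := by fun_prop
        have h2 := this.tendsto
        simp only [sub_zero, one_smul, zero_smul, add_zero] at h2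
        exact h2.mono_left nhdsWithin_le_nhds
      apply mem_closure_of_tendsto hcont
      filter_upwards [self_mem_nhdsWithin,
        nhdsWithin_le_nhds (eventually_lt_nhds (zero_lt_one : (0 : ℝ) < 1))] with t ht0 ht1
      have ht0' : 0 < t := ht0
      have hmem : (1 - t) • w + t • p ∈ segment ℝ p w := seg_of_param ⟨ht0'.le, ht1.le⟩
      apply hlow p hp
      · exact ((convex_segment p w).segment_subset (left_mem_segment ℝ p w) hmem).trans hseg
      · rw [map_add, map_smul, map_smul, smul_eq_mul, smul_eq_mul]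
        nlinarith
    -- the local statement
    have hlocal : ∀ s ∈ E, s ∈ closure U₀ → ∃ p ∈ U₀, ∃ ρ > 0, ∀ w ∈ ball s ρ ∩ E,
        segment ℝ p w ⊆ E := by
      intro s hs hcl
      obtain ⟨ρ, hρ, h⟩ := hloc s hs
      obtain ⟨u, hu1, hu2⟩ := mem_closure_iff.1 hcl (ball s ρ) isOpen_ball (mem_ball_self hρ)
      have huE : u ∈ E := by
        obtain ⟨l, hl, hul⟩ := (hU₀ u).1 hu2
        exact (hCS _ hul).1
      rcases h with h | ⟨y, hyE, hyc, hy⟩
      · exact ⟨u, hu2, ρ, hρ, fun w hw x hx => (h.segment_subset ⟨hu1, huE⟩ hw hx).2⟩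
      · refine ⟨y, ?_, ρ, hρ, hy⟩
        apply hlow u hu2
        · rw [segment_symm]; exact hy u ⟨hu1, huE⟩
        · linarith
    have hPopen : ∀ s ∈ C l₀, s ∈ closure U₀ → ∀ᶠ s' in 𝓝[C l₀] s, s' ∈ closure U₀ := by
      intro s hs hcl
      obtain ⟨p, hp, ρ, hρ, h⟩ := hlocal s (hCS _ hs).1 hcl
      filter_upwards [self_mem_nhdsWithin, nhdsWithin_le_nhds (ball_mem_nhds s hρ)] with s' h3 h4
      exact hlow2 p hp s' (h s' ⟨h4, (hCS _ h3).1⟩) (hCS _ h3).2
    have h0 : z₀ ∈ C l₀ := hCmem l₀ hl₀ge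
    have hz₀U : z₀ ∈ closure U₀ := by
      apply subset_closure
      rw [hU₀]
      exact ⟨f z₀, hcase, hCmem _ le_rfl⟩
    have := (hCpre l₀).induction₂ (fun a b => (a ∈ closure U₀ ↔ b ∈ closure U₀))
      (fun a ha => by
        by_cases h : a ∈ closure U₀
        · filter_upwards [hPopen a ha h] with b hb
          exact ⟨fun _ => hb, fun _ => h⟩
        · have h' : ∀ᶠ b in 𝓝[C l₀] a, b ∉ closure U₀ :=
            nhdsWithin_le_nhds (isClosed_closure.isOpen_compl.mem_nhds h)
          filter_upwards [h'] with b hb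
          exact ⟨fun h' => absurd h' h, fun h' => absurd h' hb⟩)
      (fun a b c _ _ _ h1 h2 => h1.trans h2) (fun a b _ _ h => h.symm) h0 hl₀L
    have hz₁U := this.1 hz₀U
    obtain ⟨p, hp, ρ, hρ, h⟩ := hlocal z₁ hz₁ hz₁U
    have hz₁U' : z₁ ∈ U₀ := hlow p hp z₁ (h z₁ ⟨mem_ball_self hρ, hz₁⟩) hz₁l
    obtain ⟨l, hl, hz⟩ := (hU₀ z₁).1 hz₁U'
    have : l₀ ≤ l := csInf_le hLbdd hz
    linarith


/-! ## definitions and the main theorem -/

/-- `x` is a locally non-convex (LNC) point of `E`: a boundary point such that no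
neighbourhood `B_r(x) ∩ E` is convex. -/
def LNC (E : Set V) (x : V) : Prop :=
  x ∈ frontier E ∧ ∀ r > 0, ¬ Convex ℝ (ball x r ∩ E)

/-- `x` is clearly visible from `y` in `E`: for some `r > 0` the point `y` sees every point of
`B_r(x) ∩ E`. -/
def ClearlyVisible (E : Set V) (y x : V) : Prop :=
  ∃ r > 0, ∀ z ∈ ball x r ∩ E, segment ℝ y z ⊆ E

/-- Property `C_n`: any `n` LNC points of `E` (repetitions allowed) are clearly visible from a
common point of `E`. -/
def PropC (n : ℕ) (E : Set V) : Prop :=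
  ∀ x : Fin n → V, (∀ i, LNC E (x i)) → ∃ y ∈ E, ∀ i, ClearlyVisible E y (x i)

/-- `E` is starshaped: some point of `E` sees every point of `E`. -/
def Starshaped (E : Set V) : Prop := ∃ y ∈ E, ∀ x ∈ E, segment ℝ y x ⊆ E

lemma convex_of_not_LNC {E : Set V} {w : V} (hw : w ∈ E) (h : ¬ LNC E w) :
    ∃ ρ > 0, Convex ℝ (ball w ρ ∩ E) := by
  by_cases hf : w ∈ frontier E
  · unfold LNC at h
    push Not at h
    obtain ⟨r, hr, hc⟩ := h hf
    exact ⟨r, hr, hc⟩
  · have hint : w ∈ interior E := by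
      by_contra hn
      exact hf ⟨subset_closure hw, hn⟩
    obtain ⟨ρ, hρ, hsub⟩ := Metric.isOpen_iff.1 isOpen_interior w hint
    refine ⟨ρ, hρ, ?_⟩
    rw [inter_eq_left.2 (hsub.trans interior_subset)]
    exact convex_ball w ρ

lemma isClosed_LNC (E : Set V) : IsClosed {x | LNC E x} := by
  rw [← isOpen_compl_iff, isOpen_iff_mem_nhds]
  intro x hx
  have hx' : ¬ LNC E x := hx
  by_cases hf : x ∈ frontier E
  · unfold LNC at hx'
    push Not at hx'
    obtain ⟨r, hr, hc⟩ := hx' hf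
    filter_upwards [ball_mem_nhds x hr] with x' hx1
    rintro ⟨-, h⟩
    have hd : dist x' x < r := hx1
    apply h (r - dist x' x) (by linarith)
    have hsub : ball x' (r - dist x' x) ⊆ ball x r := ball_subset_ball' (by linarith)
    have : ball x' (r - dist x' x) ∩ E = ball x' (r - dist x' x) ∩ (ball x r ∩ E) := by
      rw [← inter_assoc, inter_eq_left.2 hsub]
    rw [this]
    exact (convex_ball _ _).inter hc
  · filter_upwards [isClosed_frontier.isOpen_compl.mem_nhds hf] with x' hx1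
    exact fun h => hx1 h.1

/-- uniform radius -/
lemma uniform_radius {E : Set V} (hE : IsCompact E) {n : ℕ} (h : PropC n E) :
    ∃ r > 0, ∀ x : Fin n → V, (∀ i, LNC E (x i)) →
      ∃ y ∈ E, ∀ i, ∀ z ∈ ball (x i) r ∩ E, segment ℝ y z ⊆ E := by
  by_contra hcon
  push Not at hcon
  have h1 : ∀ k : ℕ, ∃ x : Fin n → V, (∀ i, LNC E (x i)) ∧
      ∀ y ∈ E, ∃ i, ∃ z ∈ ball (x i) (1 / ((k : ℝ) + 1)) ∩ E, ¬ segment ℝ y z ⊆ E :=
    fun k => hcon _ Nat.one_div_pos_of_nat
  choose x hx hx' using h1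
  have hQE : {x | LNC E x} ⊆ E := fun x hx => hE.isClosed.frontier_subset hx.1
  have hQ : IsCompact {x | LNC E x} := hE.of_isClosed_subset (isClosed_LNC E) hQE
  have hcomp : IsCompact (Set.pi univ fun _ : Fin n => {x | LNC E x}) :=
    isCompact_univ_pi fun _ => hQ
  obtain ⟨a, ha, φ, hφ, hlim⟩ := hcomp.tendsto_subseq (x := x) fun k i _ => hx k i
  obtain ⟨y, hyE, hy⟩ := h a fun i => ha i trivial
  choose r hr hr' using hy
  have h2 : ∀ᶠ k in atTop, ∀ i, ball (x (φ k) i) (1 / ((φ k : ℝ) + 1)) ⊆ ball (a i) (r i) := by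
    rw [eventually_all]
    intro i
    have h3 : Tendsto (fun k => dist (x (φ k) i) (a i) + 1 / ((φ k : ℝ) + 1)) atTop (𝓝 (0 + 0)) := by
      apply Tendsto.add
      · have := (tendsto_pi_nhds.1 hlim i)
        exact tendsto_iff_dist_tendsto_zero.1 this
      · exact (tendsto_one_div_add_atTop_nhds_zero_nat (𝕜 := ℝ)).comp hφ.tendsto_atTop
    rw [add_zero] at h3
    filter_upwards [h3.eventually_lt_const (hr i)] with k hk
    apply ball_subset_ball'
    linarith
  obtain ⟨k, hk⟩ := h2.exists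
  obtain ⟨i, z, hz, hnot⟩ := hx' (φ k) y hyE
  exact hnot (hr' i z ⟨hk i hz.1, hz.2⟩)

end Pool.Agent.Results.MP_ad2f8c_co.ClearVisibility

namespace Pool.Agent.Results.MP_ad2f8c_co.ClearVisibility

variable {V : Type*} [NormedAddCommGroup V] [InnerProductSpace ℝ V] [FiniteDimensional ℝ V]

/-- points of `E` seeing the whole `r`-neighbourhood of `q` -/
def A (E : Set V) (r : ℝ) (q : V) : Set V := {y | y ∈ E ∧ ∀ z ∈ ball q r ∩ E, segment ℝ y z ⊆ E}

theorem main {E : Set V} (hE : IsCompact E) (hconn : IsConnected E)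
    (h : PropC (Module.finrank ℝ V + 1) E) : Starshaped E := by
  obtain ⟨⟨e₀, he₀⟩, hpre⟩ := hconn
  rcases ({x | LNC E x} : Set V).eq_empty_or_nonempty with hQ | ⟨q₀, hq₀⟩
  · refine ⟨e₀, he₀, thmA hE.isClosed hpre he₀ fun w hw => ?_⟩
    have hn : ¬ LNC E w := fun hl => by
      have : w ∈ ({x | LNC E x} : Set V) := hl
      rw [hQ] at this
      exact this
    obtain ⟨ρ, hρ, hc⟩ := convex_of_not_LNC hw hn
    exact ⟨ρ, hρ, Or.inl hc⟩
  obtain ⟨r, hr, huni⟩ := uniform_radius hE h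
  -- the Helly family
  let F : {q // LNC E q} → Set V := fun q => closure (convexHull ℝ (A E r q))
  have hAE : ∀ q, A E r q ⊆ E := fun q y hy => hy.1
  have hFconv : ∀ q, Convex ℝ (F q) := fun q => (convex_convexHull ℝ _).closure
  have hFcomp : ∀ q, IsCompact (F q) := by
    intro q
    apply Metric.isCompact_of_isClosed_isBounded isClosed_closure
    exact (isBounded_convexHull.2 (hE.isBounded.subset (hAE q))).closure
  have hY : (⋂ q, F q).Nonempty := by
    apply Convex.helly_theorem_compact' (𝕜 := ℝ) hFconv hFcomp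
    intro I hI
    rcases I.eq_empty_or_nonempty with h0 | h0
    · subst h0
      exact ⟨0, by simp⟩
    · have : Nonempty I := h0.to_subtype
      have hcard : Fintype.card I ≤ Fintype.card (Fin (Module.finrank ℝ V + 1)) := by
        rw [Fintype.card_coe, Fintype.card_fin]; exact hI
      obtain ⟨g⟩ := Function.Embedding.nonempty_of_card_le hcard
      have hsurj := Function.invFun_surjective g.injective
      obtain ⟨y, hyE, hy⟩ := huni (fun i => ((Function.invFun g i : I) : {q // LNC E q}))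
        fun i => ((Function.invFun g i : I) : {q // LNC E q}).2
      refine ⟨y, ?_⟩
      rw [mem_iInter₂]
      intro q hq
      obtain ⟨i, hi⟩ := hsurj ⟨q, hq⟩
      apply subset_closure
      apply subset_convexHull
      refine ⟨hyE, fun z hz => hy i z ?_⟩
      rw [hi]
      exact hz
  -- lower points of A
  have hlow : ∀ (q : {q // LNC E q}) (y₀ : V), y₀ ∈ F q → ∀ (f : V →L[ℝ] ℝ) (c : ℝ), f y₀ < c →
      ∃ y ∈ A E r q, f y < c := by
    intro q y₀ hy₀ f c hc
    by_contra hcon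
    push Not at hcon
    have hsub : F q ⊆ {x | c ≤ f x} := by
      apply closure_minimal _ (isClosed_le continuous_const f.continuous)
      apply convexHull_min
      · exact fun y hy => hcon y hy
      · exact convex_halfSpace_ge f.isLinear c
    have := hsub hy₀
    have h' : c ≤ f y₀ := this
    linarith
  -- the flow property
  have hgood : ∀ (q : {q // LNC E q}) (y₀ : V), y₀ ∈ F q → ∀ w : V, dist w q < r →
      Good E (ball w (r - dist w q)) y₀ := by
    intro q y₀ hy₀ w hw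
    have hsub' : ball w (r - dist w q) ⊆ ball (q : V) r := ball_subset_ball' (by linarith)
    have hsub : F q ⊆ {y | Good E (ball w (r - dist w q)) y} := by
      apply closure_minimal _ (good_closed hE.isClosed isOpen_ball)
      apply convexHull_min
      · intro y hy u hu t ht _
        exact hy.2 u ⟨hsub' hu.2, hu.1⟩ (seg_of_param ht)
      · exact good_convex hE.isClosed isOpen_ball (convex_ball _ _)
    exact hsub hy₀
  -- the intersection meets E
  have hYE : ∃ y, y ∈ (⋂ q, F q) ∧ y ∈ E := by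
    by_contra hcon
    push Not at hcon
    have hYcomp : IsCompact (⋂ q, F q) :=
      (hFcomp ⟨q₀, hq₀⟩).of_isClosed_subset (isClosed_iInter fun q => isClosed_closure)
        (iInter_subset _ _)
    obtain ⟨⟨y₀, z₀⟩, ⟨hy₀, hz₀⟩, hmin⟩ := (hYcomp.prod hE).exists_isMinOn
      (hY.prod ⟨e₀, he₀⟩) (f := fun p => dist p.1 p.2) (by fun_prop)
    have hmin' : ∀ z ∈ E, dist y₀ z₀ ≤ dist y₀ z := fun z hz =>
      hmin (show (y₀, z) ∈ (⋂ q, F q) ×ˢ E from ⟨hy₀, hz⟩)
    have hne : z₀ - y₀ ≠ 0 := by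
      intro h0
      have : y₀ = z₀ := (sub_eq_zero.1 h0).symm
      exact hcon y₀ hy₀ (this ▸ hz₀)
    have hpos : 0 < ‖z₀ - y₀‖ := norm_pos_iff.2 hne
    have hmem : ∀ q : {q // LNC E q}, y₀ ∈ F q := fun q => mem_iInter.1 hy₀ q
    -- z₀ is far from the LNC points
    have hfar : ¬ LNC E z₀ := by
      intro hl
      have hg := hgood ⟨z₀, hl⟩ y₀ (hmem _) z₀ (by simpa using hr)
      simp only [dist_self, sub_zero] at hg
      have hcont : ContinuousAt (fun t : ℝ => (1 - t) • z₀ + t • y₀) 0 := by fun_prop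
      have hev : ∀ᶠ t in 𝓝 (0 : ℝ), (1 - t) • z₀ + t • y₀ ∈ ball z₀ r := by
        apply hcont.eventually_mem
        simpa using isOpen_ball.mem_nhds (mem_ball_self hr)
      have h7 : ∀ᶠ t in 𝓝[>] (0 : ℝ), (1 - t) • z₀ + t • y₀ ∈ ball z₀ r ∧ 0 < t ∧ t < 1 := by
        filter_upwards [nhdsWithin_le_nhds hev, self_mem_nhdsWithin,
          nhdsWithin_le_nhds (eventually_lt_nhds (zero_lt_one : (0 : ℝ) < 1))] with t a b d
        exact ⟨a, b, d⟩
      obtain ⟨t, ht1, ht2, ht3⟩ := h7.exists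
      have h8 := hg z₀ ⟨hz₀, mem_ball_self hr⟩ t ⟨ht2.le, ht3.le⟩ ht1
      have h9 := hmin' _ h8
      rw [dist_eq_norm, dist_eq_norm] at h9
      have e1 : y₀ - ((1 - t) • z₀ + t • y₀) = (1 - t) • (y₀ - z₀) := by module
      rw [e1, norm_smul, Real.norm_eq_abs, abs_of_pos (by linarith), ← norm_neg (y₀ - z₀),
        neg_sub] at h9
      nlinarith
    obtain ⟨ρ, hρ, hconv⟩ := convex_of_not_LNC hz₀ hfar
    let f : V →L[ℝ] ℝ := innerSL ℝ (z₀ - y₀)
    have hf : ∀ x, f x = inner ℝ (z₀ - y₀) x := fun x => rfl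
    have hfy : f y₀ < f z₀ := by
      have : f z₀ - f y₀ = ‖z₀ - y₀‖ ^ 2 := by
        rw [hf, hf, ← inner_sub_right, real_inner_self_eq_norm_sq]
      nlinarith
    have hlocmin : ∀ u ∈ ball z₀ ρ ∩ E, f z₀ ≤ f u := by
      intro u hu
      by_contra hlt
      push Not at hlt
      obtain ⟨w, hw⟩ : ∃ w : V, w = u - z₀ := ⟨_, rfl⟩
      obtain ⟨a, ha⟩ : ∃ a : ℝ, a = inner ℝ (z₀ - y₀) w := ⟨_, rfl⟩
      have ha0 : a < 0 := by
        rw [ha, hw, inner_sub_right]
        rw [hf, hf] at hlt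
        linarith
      have hseg : ∀ t ∈ Icc (0 : ℝ) 1, ‖z₀ - y₀‖ ^ 2 ≤ ‖z₀ - y₀‖ ^ 2 + 2 * t * a + t ^ 2 * ‖w‖ ^ 2 := by
        intro t ht
        have hmem' : z₀ + t • w ∈ E := by
          have : z₀ + t • w = (1 - t) • z₀ + t • u := by rw [hw]; module
          rw [this]
          exact (hconv ⟨mem_ball_self hρ, hz₀⟩ hu (by linarith [ht.2]) ht.1 (by ring)).2
        have h9 := hmin' _ hmem'
        rw [dist_comm, dist_comm y₀, dist_eq_norm, dist_eq_norm] at h9
        have e2 : ‖z₀ + t • w - y₀‖ ^ 2 = ‖z₀ - y₀‖ ^ 2 + 2 * t * a + t ^ 2 * ‖w‖ ^ 2 := by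
          have : z₀ + t • w - y₀ = (z₀ - y₀) + t • w := by abel
          rw [this, norm_add_sq_real, inner_smul_right, norm_smul, mul_pow, ← ha,
            Real.norm_eq_abs, sq_abs]
          ring
        rw [← e2]
        have h10 := norm_nonneg (z₀ - y₀)
        gcongr
      rcases le_or_gt (‖w‖ ^ 2) (-a) with h11 | h11
      · have := hseg 1 (by simp)
        nlinarith
      · have hw2 : 0 < ‖w‖ ^ 2 := by linarith
        have := hseg (-a / ‖w‖ ^ 2) ⟨div_nonneg (by linarith) hw2.le, by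
          rw [div_le_one hw2]; linarith⟩
        have e3 : 2 * (-a / ‖w‖ ^ 2) * a + (-a / ‖w‖ ^ 2) ^ 2 * ‖w‖ ^ 2 = -(a ^ 2 / ‖w‖ ^ 2) := by
          field_simp
          ring
        have e4 : 0 < a ^ 2 / ‖w‖ ^ 2 := div_pos (by nlinarith) hw2
        linarith
    obtain ⟨z₁, hz₁, hz₁c⟩ := hlow ⟨q₀, hq₀⟩ y₀ (hmem _) f (f z₀) hfy
    refine mountain hE hpre f (f z₀) (fun w hw => ?_) hz₀ le_rfl ⟨ρ, hρ, hlocmin⟩ hz₁.1 hz₁c
    by_cases hq : ∃ q : {q // LNC E q}, dist w q < r
    · obtain ⟨q, hq⟩ := hq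
      obtain ⟨y, hy, hyc⟩ := hlow q y₀ (hmem q) f (f z₀) hfy
      refine ⟨r - dist w q, by linarith, Or.inr ⟨y, hy.1, hyc, fun u hu => hy.2 u ⟨?_, hu.2⟩⟩⟩
      exact ball_subset_ball' (by linarith) hu.1
    · have hn : ¬ LNC E w := fun hl => hq ⟨⟨w, hl⟩, by simpa using hr⟩
      obtain ⟨ρ', hρ', hc⟩ := convex_of_not_LNC hw hn
      exact ⟨ρ', hρ', Or.inl hc⟩
  obtain ⟨y, hyY, hyE⟩ := hYE
  refine ⟨y, hyE, thmA hE.isClosed hpre hyE fun w hw => ?_⟩
  by_cases hq : ∃ q : {q // LNC E q}, dist w q < r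
  · obtain ⟨q, hq⟩ := hq
    exact ⟨r - dist w q, by linarith, Or.inr (hgood q y (mem_iInter.1 hyY q) w hq)⟩
  · have hn : ¬ LNC E w := fun hl => hq ⟨⟨w, hl⟩, by simpa using hr⟩
    obtain ⟨ρ', hρ', hc⟩ := convex_of_not_LNC hw hn
    exact ⟨ρ', hρ', Or.inl hc⟩

/-- In every dimension `d`, a compact connected subset of `ℝ^d` with property `C_{d+1}` is
starshaped. -/
theorem result (d : ℕ) (E : Set (EuclideanSpace ℝ (Fin d))) (hE : IsCompact E)
    (hconn : IsConnected E) (h : PropC (d + 1) E) : Starshaped E := by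
  apply main hE hconn
  rw [finrank_euclideanSpace, Fintype.card_fin]
  exact h

end Pool.Agent.Results.MP_ad2f8c_co.ClearVisibility
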